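import Mathlib
import Pool.Agent.Lib.helper4.Ramsey

set_option autoImplicit false

namespace Pool.Agent.H.MP_dc39f7_co

/-- The canonical edge orders of a complete graph on `0, …, n-1`. -/
def Canon (n : ℕ) (T : ℕ → ℕ → ℕ) : Prop :=
  (∀ a b c d, a < b → c < d → b < d → d < n → T a b < T c d) ∨
  ((∀ a b c d, a < b → c < d → a < c → b < n → d < n → T a b < T c d) ∧
    ((∀ a b c, a < b → b < c → c < n → T a b < T a c) ∨
     (∀ a b c, a < b → b < c → c < n → T a c < T a b)))

structure Dich (n : ℕ) (T : ℕ → ℕ → ℕ) : Prop where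
  al : (∀ a b c, a < b → b < c → c < n → T a b < T a c) ∨
     (∀ a b c, a < b → b < c → c < n → T a c < T a b)
  be : (∀ a b c, a < b → b < c → c < n → T a b < T b c) ∨
     (∀ a b c, a < b → b < c → c < n → T b c < T a b)
  ga : (∀ a b c, a < b → b < c → c < n → T a c < T b c) ∨
     (∀ a b c, a < b → b < c → c < n → T b c < T a c)
  ep : (∀ a b c d, a < b → b < c → c < d → d < n → T a c < T b d) ∨
     (∀ a b c d, a < b → b < c → c < d → d < n → T b d < T a c)
  ze : (∀ a b c d, a < b → b < c → c < d → d < n → T a d < T b c) ∨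
     (∀ a b c d, a < b → b < c → c < d → d < n → T b c < T a d)

theorem canon_of {n : ℕ} {T : ℕ → ℕ → ℕ} (hn : 5 ≤ n) (h : Dich n T)
    (hb : ∀ a b c, a < b → b < c → c < n → T a b < T b c) : Canon n T := by
  have hd : ∀ a b c d, a < b → b < c → c < d → d < n → T a b < T c d := fun a b c d h1 h2 h3 h4 =>
    (hb a b c h1 h2 (by omega)).trans (hb b c d h2 h3 h4)
  have he : ∀ a b c d, a < b → b < c → c < d → d < n → T a c < T b d := by
    rcases h.ep with h1 | h1
    · exact h1
    · exfalso
      have a1 := h1 0 1 2 3 (by omega) (by omega) (by omega) (by omega)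
      have a2 := h1 1 2 3 4 (by omega) (by omega) (by omega) (by omega)
      have a3 := hb 0 2 4 (by omega) (by omega) (by omega)
      omega
  rcases h.ze with hz | hz
  · right
    have hg : ∀ a b c, a < b → b < c → c < n → T a c < T b c := by
      rcases h.ga with h1 | h1
      · exact h1
      · exfalso
        rcases h.al with h2 | h2
        · have a1 := hz 0 1 2 3 (by omega) (by omega) (by omega) (by omega)
          have a2 := h2 1 2 3 (by omega) (by omega) (by omega)
          have a3 := h1 0 1 3 (by omega) (by omega) (by omega)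
          omega
        · have a1 := h2 0 1 2 (by omega) (by omega) (by omega)
          have a2 := h1 0 1 2 (by omega) (by omega) (by omega)
          have a3 := hb 0 1 2 (by omega) (by omega) (by omega)
          omega
    refine ⟨fun a b c d h1 h2 h3 h4 h5 => ?_, h.al⟩
    rcases lt_trichotomy b c with h6 | h6 | h6
    · exact hd a b c d h1 h6 h2 h5
    · subst h6; exact hb a b d h1 h2 h5
    · rcases lt_trichotomy b d with h7 | h7 | h7
      · exact he a c b d h3 h6 h7 h5
      · subst h7; exact hg a c b h3 h2 h4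
      · exact hz a c d b h3 h2 h7 h4
  · left
    have ha : ∀ a b c, a < b → b < c → c < n → T a b < T a c := by
      rcases h.al with h1 | h1
      · exact h1
      · exfalso
        rcases h.ga with h2 | h2
        · have a1 := hz 0 1 2 3 (by omega) (by omega) (by omega) (by omega)
          have a2 := h2 0 1 2 (by omega) (by omega) (by omega)
          have a3 := h1 0 2 3 (by omega) (by omega) (by omega)
          omega
        · have a1 := h2 0 1 2 (by omega) (by omega) (by omega)
          have a2 := h1 0 1 2 (by omega) (by omega) (by omega)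
          have a3 := hb 0 1 2 (by omega) (by omega) (by omega)
          omega
    intro a b c d h1 h2 h3 h4
    rcases lt_trichotomy b c with h6 | h6 | h6
    · exact hd a b c d h1 h6 h2 h4
    · subst h6; exact hb a b d h1 h2 h4
    · rcases lt_trichotomy a c with h7 | h7 | h7
      · exact he a c b d h7 h6 h3 h4
      · subst h7; exact ha a b d h1 h3 h4
      · exact hz c a b d h7 h1 h3 h4

theorem dich_rev {n : ℕ} {T : ℕ → ℕ → ℕ} (hs : ∀ a b, T a b = T b a) (h : Dich n T) :
    Dich n (fun a b => T (n - 1 - a) (n - 1 - b)) := by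
  constructor
  · rcases h.ga with h1 | h1
    · right; intro a b c h2 h3 h4
      have := h1 (n - 1 - c) (n - 1 - b) (n - 1 - a) (by omega) (by omega) (by omega)
      rwa [hs (n - 1 - c), hs (n - 1 - b)] at this
    · left; intro a b c h2 h3 h4
      have := h1 (n - 1 - c) (n - 1 - b) (n - 1 - a) (by omega) (by omega) (by omega)
      rwa [hs (n - 1 - c), hs (n - 1 - b)] at this
  · rcases h.be with h1 | h1
    · right; intro a b c h2 h3 h4
      have := h1 (n - 1 - c) (n - 1 - b) (n - 1 - a) (by omega) (by omega) (by omega)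
      rwa [hs (n - 1 - c), hs (n - 1 - b) (n - 1 - a)] at this
    · left; intro a b c h2 h3 h4
      have := h1 (n - 1 - c) (n - 1 - b) (n - 1 - a) (by omega) (by omega) (by omega)
      rwa [hs (n - 1 - c), hs (n - 1 - b) (n - 1 - a)] at this
  · rcases h.al with h1 | h1
    · right; intro a b c h2 h3 h4
      have := h1 (n - 1 - c) (n - 1 - b) (n - 1 - a) (by omega) (by omega) (by omega)
      rwa [hs (n - 1 - c), hs (n - 1 - c)] at this
    · left; intro a b c h2 h3 h4
      have := h1 (n - 1 - c) (n - 1 - b) (n - 1 - a) (by omega) (by omega) (by omega)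
      rwa [hs (n - 1 - c), hs (n - 1 - c)] at this
  · rcases h.ep with h1 | h1
    · right; intro a b c d h2 h3 h4 h5
      have := h1 (n - 1 - d) (n - 1 - c) (n - 1 - b) (n - 1 - a) (by omega) (by omega) (by omega)
        (by omega)
      rwa [hs (n - 1 - d), hs (n - 1 - c)] at this
    · left; intro a b c d h2 h3 h4 h5
      have := h1 (n - 1 - d) (n - 1 - c) (n - 1 - b) (n - 1 - a) (by omega) (by omega) (by omega)
        (by omega)
      rwa [hs (n - 1 - d), hs (n - 1 - c)] at this
  · rcases h.ze with h1 | h1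
    · left; intro a b c d h2 h3 h4 h5
      have := h1 (n - 1 - d) (n - 1 - c) (n - 1 - b) (n - 1 - a) (by omega) (by omega) (by omega)
        (by omega)
      rwa [hs (n - 1 - d), hs (n - 1 - c)] at this
    · right; intro a b c d h2 h3 h4 h5
      have := h1 (n - 1 - d) (n - 1 - c) (n - 1 - b) (n - 1 - a) (by omega) (by omega) (by omega)
        (by omega)
      rwa [hs (n - 1 - d), hs (n - 1 - c)] at this

theorem dich_of {n : ℕ} {T : ℕ → ℕ → ℕ} (hn : 5 ≤ n)
    (hi : ∀ a b c d, a < b → c < d → b ≤ n → d ≤ n → T a b = T c d → a = c ∧ b = d)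
    (H : ∀ a b c d, a < b → b < c → c < d → d ≤ n → ∀ i j k l : Fin 4,
      (T (![a, b, c, d] i) (![a, b, c, d] j) < T (![a, b, c, d] k) (![a, b, c, d] l) ↔
       T (![0, 1, 2, 3] i) (![0, 1, 2, 3] j) < T (![0, 1, 2, 3] k) (![0, 1, 2, 3] l))) :
    Dich n T := by
  constructor
  · rcases lt_trichotomy (T 0 1) (T 0 2) with h | h | h
    · left; intro a b c h1 h2 h3; simpa using (H a b c n h1 h2 h3 le_rfl 0 1 0 2).2 (by simpa using h)
    · have := hi _ _ _ _ (by omega) (by omega) (by omega) (by omega) h; omega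
    · right; intro a b c h1 h2 h3; simpa using (H a b c n h1 h2 h3 le_rfl 0 2 0 1).2 (by simpa using h)
  · rcases lt_trichotomy (T 0 1) (T 1 2) with h | h | h
    · left; intro a b c h1 h2 h3; simpa using (H a b c n h1 h2 h3 le_rfl 0 1 1 2).2 (by simpa using h)
    · have := hi _ _ _ _ (by omega) (by omega) (by omega) (by omega) h; omega
    · right; intro a b c h1 h2 h3; simpa using (H a b c n h1 h2 h3 le_rfl 1 2 0 1).2 (by simpa using h)
  · rcases lt_trichotomy (T 0 2) (T 1 2) with h | h | h
    · left; intro a b c h1 h2 h3; simpa using (H a b c n h1 h2 h3 le_rfl 0 2 1 2).2 (by simpa using h)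
    · have := hi _ _ _ _ (by omega) (by omega) (by omega) (by omega) h; omega
    · right; intro a b c h1 h2 h3; simpa using (H a b c n h1 h2 h3 le_rfl 1 2 0 2).2 (by simpa using h)
  · rcases lt_trichotomy (T 0 2) (T 1 3) with h | h | h
    · left; intro a b c d h1 h2 h3 h4
      simpa using (H a b c d h1 h2 h3 h4.le 0 2 1 3).2 (by simpa using h)
    · have := hi _ _ _ _ (by omega) (by omega) (by omega) (by omega) h; omega
    · right; intro a b c d h1 h2 h3 h4
      simpa using (H a b c d h1 h2 h3 h4.le 1 3 0 2).2 (by simpa using h)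
  · rcases lt_trichotomy (T 0 3) (T 1 2) with h | h | h
    · left; intro a b c d h1 h2 h3 h4
      simpa using (H a b c d h1 h2 h3 h4.le 0 3 1 2).2 (by simpa using h)
    · have := hi _ _ _ _ (by omega) (by omega) (by omega) (by omega) h; omega
    · right; intro a b c d h1 h2 h3 h4
      simpa using (H a b c d h1 h2 h3 h4.le 1 2 0 3).2 (by simpa using h)

theorem canon (n : ℕ) (hn : 5 ≤ n) : ∃ M : ℕ, ∀ ℓ : Fin M → Fin M → ℕ, (∀ a b, ℓ a b = ℓ b a) →
    (∀ a b c d, a < b → c < d → ℓ a b = ℓ c d → a = c ∧ b = d) →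
    ∃ y : ℕ → Fin M, (∀ a b, a < n → b < n → y a = y b → a = b) ∧
      Canon n (fun a b => ℓ (y a) (y b)) := by
  classical
  obtain ⟨M, hM⟩ := Pool.Agent.Lib.helper4.Ramsey.ram (Fin 4 → Fin 4 → Fin 4 → Fin 4 → Bool) 4 (n + 1)
  refine ⟨M, fun ℓ hs hi => ?_⟩
  obtain ⟨Y, -, hc, hY⟩ := hM (Fin M) Finset.univ (by simp)
    (fun x i j k l => decide (ℓ (x i) (x j) < ℓ (x k) (x l)))
  let e := Y.orderEmbOfFin hc
  let y : ℕ → Fin M := fun a => e ⟨min a n, by omega⟩
  have hy : ∀ a b, a < b → b ≤ n → y a < y b := fun a b h1 h2 =>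
    e.strictMono (by simp only [Fin.mk_lt_mk]; omega)
  have hym : ∀ a, y a ∈ Y := fun a => Finset.orderEmbOfFin_mem _ _ _
  have hsm : ∀ a b c d, a < b → b < c → c < d → d ≤ n →
      StrictMono (fun i : Fin 4 => y (![a, b, c, d] i)) := by
    intro a b c d h1 h2 h3 h4
    refine Fin.strictMono_iff_lt_succ.2 fun i => ?_
    fin_cases i
    · exact hy a b h1 (by omega)
    · exact hy b c h2 (by omega)
    · exact hy c d h3 h4
  have hD : Dich n (fun a b => ℓ (y a) (y b)) := by
    refine dich_of hn ?_ ?_
    · intro a b c d h1 h2 h3 h4 h5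
      obtain ⟨h6, h7⟩ := hi _ _ _ _ (hy a b h1 h3) (hy c d h2 h4) h5
      have h8 := congrArg Fin.val (e.injective h6)
      have h9 := congrArg Fin.val (e.injective h7)
      simp only at h8 h9
      omega
    · intro a b c d h1 h2 h3 h4 i j k l
      have := hY _ _ (hsm a b c d h1 h2 h3 h4) (hsm 0 1 2 3 (by omega) (by omega) (by omega) (by omega))
        (fun _ => hym _) (fun _ => hym _)
      have := congrFun (congrFun (congrFun (congrFun this i) j) k) l
      simpa using this
  have hinj : ∀ a b, a < n → b < n → y a = y b → a = b := by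
    intro a b h1 h2 h3
    have h8 := congrArg Fin.val (e.injective h3)
    simp only at h8
    omega
  rcases hD.be with hb | hb
  · exact ⟨y, hinj, canon_of hn hD hb⟩
  · refine ⟨fun a => y (n - 1 - a), fun a b h1 h2 h3 => ?_, ?_⟩
    · have := hinj _ _ (by omega) (by omega) h3; omega
    · refine canon_of hn (dich_rev (T := fun a b => ℓ (y a) (y b)) (fun a b => hs _ _) hD) ?_
      intro a b c h1 h2 h3
      have := hb (n - 1 - c) (n - 1 - b) (n - 1 - a) (by omega) (by omega) (by omega)
      simp only at this ⊢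
      rwa [hs (y (n - 1 - c)), hs (y (n - 1 - b)) (y (n - 1 - a))] at this

end Pool.Agent.H.MP_dc39f7_co
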